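import Pool.Agent.H914R2.HLam

/-!
# The lowering operator of a hard Lefschetz structure and nondegenerate algebras of operators
-/

open Finset

namespace Pool.Agent.E8helper99.SM

open Pool.Agent.H914

variable {K : Type*} [Field K] [CharZero K] {V : Type*} [AddCommGroup V] [Module K V]
  {gr : ℕ → Submodule K V} {n : ℕ} {L : Module.End K V}

omit [CharZero K] in
/-- The powers of `L` and an operator whose double commutator with `L` vanishes. -/
lemma pow_comm {z : Module.End K V} (hc : L * (L * z - z * L) = (L * z - z * L) * L) (k : ℕ) :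
    L ^ (k + 1) * z = z * L ^ (k + 1) + ((k + 1 : ℕ) : K) • ((L * z - z * L) * L ^ k) := by
  induction k with
  | zero => simp
  | succ k ih =>
    have h1 : L ^ (k + 1 + 1) * z = L * (L ^ (k + 1) * z) := by rw [pow_succ' L (k + 1), mul_assoc]
    have h2 : L * ((L * z - z * L) * L ^ k) = (L * z - z * L) * L ^ (k + 1) := by
      rw [← mul_assoc, hc, mul_assoc, ← pow_succ']
    have h3 : L * (z * L ^ (k + 1)) = z * L ^ (k + 1 + 1) + (L * z - z * L) * L ^ (k + 1) := by
      rw [pow_succ' L (k + 1)]
      noncomm_ring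
    rw [h1, ih, mul_add, mul_smul_comm, h2, h3]
    push_cast
    simp only [add_smul, one_smul]
    abel

/-- The double commutator with `L` is injective on the operators of degree `-2`. -/
lemma ad_inj (h : DirectSum.IsInternal gr) (hL : IsHom gr 2 L)
    (hbd : ∀ i, 2 * n + 1 ≤ i → gr i = ⊥) (hHL : HardLef gr n L) {z : Module.End K V}
    (hz : IsHom gr (-2) z) (hc : L * (L * z - z * L) = (L * z - z * L) * L) : z = 0 := by
  set C := L * z - z * L with hC
  have hC0 : IsHom gr 0 C := by
    have h1 := (hL.mul hz).sub (by simpa using hz.mul hL)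
    simpa using h1
  have hCL : ∀ j, L ^ j * C = C * L ^ j := fun j => (show Commute L C from hc).pow_left j
  apply LinearMap.ext
  intro x
  refine lef_induction' h hL hbd hHL (p := fun x => z x = (0 : Module.End K V) x) ?_ ?_ x
  · intro a b ha hb; rw [map_add, map_add, ha, hb]
  intro i hi a ha hp
  have hpc : ∀ k, (L ^ (k + 1)) (z a) = z ((L ^ (k + 1)) a) +
      ((k + 1 : ℕ) : K) • C ((L ^ k) a) := fun k => by
    have := congrArg (fun F => F a) (pow_comm hc k)
    exact this
  -- `z a = 0`
  have h1 : z a = 0 := by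
    have hz' := hz i a (by rw [grZ_natCast]; exact ha)
    by_cases hi2 : 2 ≤ i
    · rw [show (i : ℤ) + (-2) = ((i - 2 : ℕ) : ℤ) by omega, grZ_natCast] at hz'
      apply (hHL (i - 2) (by omega)).1 _ hz'
      rw [show n - (i - 2) = (n - i + 1) + 1 by omega, hpc, L_pow_gt hp (by omega), hp]
      simp
    · rw [grZ_of_neg (by omega)] at hz'
      exact (Submodule.mem_bot _).1 hz'
  -- `C a = 0`
  have h2 : C a = 0 := by
    have hCa : C a ∈ gr i := by
      have := hC0 i a (by rw [grZ_natCast]; exact ha)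
      rwa [add_zero, grZ_natCast] at this
    apply (hHL i hi).1 _ hCa
    have h3 := hpc (n - i)
    rw [h1, map_zero, hp, map_zero, zero_add] at h3
    have h4 : ((n - i + 1 : ℕ) : K) ≠ 0 := by exact_mod_cast Nat.succ_ne_zero (n - i)
    have h5 := (smul_eq_zero.1 h3.symm).resolve_left h4
    have h6 := congrArg (fun F => F a) (hCL (n - i))
    rw [Module.End.mul_apply, Module.End.mul_apply, h5] at h6
    exact h6
  intro j
  rw [LinearMap.zero_apply]
  rcases Nat.eq_zero_or_pos j with rfl | hj
  · simpa using h1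
  · obtain ⟨k, rfl⟩ : ∃ k, j = k + 1 := ⟨j - 1, by omega⟩
    have h3 := hpc k
    have h6 := congrArg (fun F => F a) (hCL k)
    rw [Module.End.mul_apply, Module.End.mul_apply, h2, map_zero] at h6
    rw [h1, map_zero, ← h6, smul_zero, add_zero] at h3
    exact h3.symm

/-- An operator of degree `-2` which satisfies one relation of `sl(2)` is the lowering operator. -/
lemma comm_eq_wt [Module.Finite K V] (h : DirectSum.IsInternal gr) (hL : IsHom gr 2 L)
    (hbd : ∀ i, 2 * n + 1 ≤ i → gr i = ⊥) (hHL : HardLef gr n L) {f : Module.End K V}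
    (hf : IsHom gr (-2) f) (hfL : L * (L * f - f * L) - (L * f - f * L) * L = -(2 * L)) :
    L * f - f * L = wt h n := by
  obtain ⟨Lam, hs, hLam, -⟩ := exists_sl2 h hL hbd hHL
  have hTL : L * (L * Lam - Lam * L) - (L * Lam - Lam * L) * L = -(2 * L) := by
    rw [hs.ef]
    have := hs.he
    calc L * wt h n - wt h n * L = -(wt h n * L - L * wt h n) := by noncomm_ring
      _ = _ := by rw [this]
  have h3 : f - Lam = 0 := by
    refine ad_inj h hL hbd hHL (hf.sub hLam) ?_
    have h4 : L * (L * (f - Lam) - (f - Lam) * L) - (L * (f - Lam) - (f - Lam) * L) * L = 0 := by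
      calc L * (L * (f - Lam) - (f - Lam) * L) - (L * (f - Lam) - (f - Lam) * L) * L
          = (L * (L * f - f * L) - (L * f - f * L) * L) -
            (L * (L * Lam - Lam * L) - (L * Lam - Lam * L) * L) := by noncomm_ring
        _ = 0 := by rw [hfL, hTL, sub_self]
    exact sub_eq_zero.1 h4
  rw [sub_eq_zero.1 h3]
  exact hs.ef

omit [CharZero K] in
/-- The operator `[L, ∑ L^a Φ^(m+1) L^b] = ∑ [L^(m+1), Φ^(m+1)]`. -/
lemma comm_sum (L Φ : Module.End K V) (m : ℕ) :
    L * (∑ a ∈ range (m + 1), L ^ a * Φ ^ (m + 1) * L ^ (m - a)) -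
      (∑ a ∈ range (m + 1), L ^ a * Φ ^ (m + 1) * L ^ (m - a)) * L =
      L ^ (m + 1) * Φ ^ (m + 1) - Φ ^ (m + 1) * L ^ (m + 1) := by
  rw [Finset.mul_sum, Finset.sum_mul, ← Finset.sum_sub_distrib]
  have h1 : ∀ a ∈ range (m + 1), L * (L ^ a * Φ ^ (m + 1) * L ^ (m - a)) -
      L ^ a * Φ ^ (m + 1) * L ^ (m - a) * L =
      L ^ (a + 1) * Φ ^ (m + 1) * L ^ (m + 1 - (a + 1)) -
        L ^ a * Φ ^ (m + 1) * L ^ (m + 1 - a) := by
    intro a ha
    rw [Finset.mem_range] at ha
    rw [show m + 1 - (a + 1) = m - a by omega, show m + 1 - a = m - a + 1 by omega,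
      pow_succ' L a, pow_succ L (m - a)]
    simp only [mul_assoc]
  rw [Finset.sum_congr rfl h1,
    Finset.sum_range_sub (fun a => L ^ a * Φ ^ (m + 1) * L ^ (m + 1 - a))]
  simp

omit [CharZero K] in
/-- An operator of degree `2` is nilpotent. -/
lemma nilp_of_hom (h : DirectSum.IsInternal gr) (hL : IsHom gr 2 L)
    (hbd : ∀ i, 2 * n + 1 ≤ i → gr i = ⊥) : IsNilpotent L := by
  refine ⟨n + 1, ?_⟩
  apply gr_ext h
  intro i a ha
  have h1 := pow_L_mem hL ha (n + 1)
  rw [hbd _ (by omega)] at h1
  exact (Submodule.mem_bot _).1 h1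

/-- The trace of an operator of nonzero degree vanishes. -/
lemma trace_isHom [Module.Finite K V] (h : DirectSum.IsInternal gr) {d : ℤ} (hd : d ≠ 0)
    {u : Module.End K V} (hu : IsHom gr d u) : LinearMap.trace K V u = 0 := by
  have h1 := trace_comm_wt h 0 (v := 1) hu
  rw [mul_one, one_mul, sub_self, zero_mul, map_zero] at h1
  exact (mul_eq_zero.1 h1.symm).resolve_left (by exact_mod_cast hd)

omit [CharZero K] in
/-- Duality for a pair of spaces of operators. -/
lemma exists_rep [Module.Finite K V] {E F : Submodule K (Module.End K V)}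
    (hF : ∀ y ∈ F, (∀ x ∈ E, LinearMap.trace K V (x * y) = 0) → y = 0)
    (hd : Module.finrank K E ≤ Module.finrank K F) (u : Module.End K V) :
    ∃ f ∈ E, ∀ y ∈ F, LinearMap.trace K V (f * y) = LinearMap.trace K V (u * y) := by
  set B : Module.End K V →ₗ[K] Module.End K V →ₗ[K] K :=
    (LinearMap.mul K (Module.End K V)).compr₂ (LinearMap.trace K V) with hB
  set Φ : E →ₗ[K] Module.Dual K F := (B.domRestrict₁₂ E F) with hΦ
  have hΦa : ∀ (x : E) (y : F), Φ x y = LinearMap.trace K V ((x : Module.End K V) * y) :=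
    fun x y => rfl
  set Ψ : F →ₗ[K] Module.Dual K E := Φ.flip with hΨ
  have hΨa : ∀ (x : E) (y : F), Ψ y x = LinearMap.trace K V ((x : Module.End K V) * y) :=
    fun x y => rfl
  have i2 : Function.Injective Ψ := by
    rw [← LinearMap.ker_eq_bot, LinearMap.ker_eq_bot']
    intro y hy
    apply Subtype.ext
    apply hF y y.2
    intro x hx
    rw [← hΨa ⟨x, hx⟩ y, hy]
    rfl
  have e2 := LinearMap.finrank_le_finrank_of_injective i2
  rw [Subspace.dual_finrank_eq] at e2
  have s2 : Function.Surjective Ψ :=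
    (LinearMap.injective_iff_surjective_of_finrank_eq_finrank
      (by rw [Subspace.dual_finrank_eq]; omega)).1 i2
  have i1 : Function.Injective Φ := by
    rw [← LinearMap.ker_eq_bot, LinearMap.ker_eq_bot']
    intro x hx
    rw [← Module.forall_dual_apply_eq_zero_iff K]
    intro ψ
    obtain ⟨y, rfl⟩ := s2 ψ
    rw [hΨ, LinearMap.flip_apply, hx]
    rfl
  have s1 : Function.Surjective Φ :=
    (LinearMap.injective_iff_surjective_of_finrank_eq_finrank
      (by rw [Subspace.dual_finrank_eq]; omega)).1 i1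
  obtain ⟨f, hf⟩ := s1 ((B u).domRestrict F)
  refine ⟨f, f.2, fun y hy => ?_⟩
  rw [← hΦa f ⟨y, hy⟩, hf]
  rfl

/-- **The lowering operator.** Let `E` and `F` be spaces of operators of degrees `-2` and `2` with
`L ∈ F` and `[L, [L, E]] ⊆ F`, such that no nonzero element of `F` is orthogonal to `E` for the
trace. Then the lowering operator attached to `L` is in `E`. -/
theorem lam_mem [Module.Finite K V] (h : DirectSum.IsInternal gr) (hL : IsHom gr 2 L)
    (hbd : ∀ i, 2 * n + 1 ≤ i → gr i = ⊥) (hHL : HardLef gr n L)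
    {E F : Submodule K (Module.End K V)}
    (hF : ∀ y ∈ F, (∀ x ∈ E, LinearMap.trace K V (x * y) = 0) → y = 0)
    (hEh : ∀ x ∈ E, IsHom gr (-2) x) (hLF : L ∈ F)
    (hT : ∀ x ∈ E, L * (L * x - x * L) - (L * x - x * L) * L ∈ F) :
    ∃ f ∈ E, L * f - f * L = wt h n := by
  obtain ⟨Lam, hs, hLam, -⟩ := exists_sl2 h hL hbd hHL
  have hd : Module.finrank K E ≤ Module.finrank K F := by
    set ad : Module.End K (Module.End K V) := LinearMap.mulLeft K L - LinearMap.mulRight K L
      with had
    have hada : ∀ x, (ad ∘ₗ ad) x = L * (L * x - x * L) - (L * x - x * L) * L := fun x => rfl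
    have hT' : ∀ x ∈ E, (ad ∘ₗ ad) x ∈ F := fun x hx => by rw [hada]; exact hT x hx
    apply LinearMap.finrank_le_finrank_of_injective (f := (ad ∘ₗ ad).restrict hT')
    rw [← LinearMap.ker_eq_bot, LinearMap.ker_eq_bot']
    rintro ⟨x, hx⟩ h0
    have h1 : (ad ∘ₗ ad) x = 0 := congrArg Subtype.val h0
    rw [hada] at h1
    exact Subtype.ext (ad_inj h hL hbd hHL (hEh x hx) (sub_eq_zero.1 h1))
  obtain ⟨f, hfE, hf⟩ := exists_rep hF hd Lam
  refine ⟨f, hfE, ?_⟩
  -- cyclic invariance
  have cyc : ∀ x y : Module.End K V, LinearMap.trace K V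
      ((L * (L * x - x * L) - (L * x - x * L) * L) * y) =
      LinearMap.trace K V (x * (L * (L * y - y * L) - (L * y - y * L) * L)) := by
    intro x y
    have e1 : LinearMap.trace K V (L * L * x * y) = LinearMap.trace K V (x * y * L * L) := by
      rw [show L * L * x * y = (L * L) * (x * y) by noncomm_ring, LinearMap.trace_mul_comm]
      congr 1
    have e2 : LinearMap.trace K V (L * x * L * y) = LinearMap.trace K V (x * L * y * L) := by
      rw [show L * x * L * y = L * (x * L * y) by noncomm_ring, LinearMap.trace_mul_comm]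
    have e3 : (L * (L * x - x * L) - (L * x - x * L) * L) * y =
        L * L * x * y - (L * x * L * y + L * x * L * y) + x * L * L * y := by noncomm_ring
    have e4 : x * (L * (L * y - y * L) - (L * y - y * L) * L) =
        x * L * L * y - (x * L * y * L + x * L * y * L) + x * y * L * L := by noncomm_ring
    rw [e3, e4]
    simp only [map_add, map_sub]
    rw [e1, e2]
    ring
  set T := L * (L * f - f * L) - (L * f - f * L) * L with hTdef
  have hTL : L * (L * Lam - Lam * L) - (L * Lam - Lam * L) * L = -(2 * L) := by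
    rw [hs.ef]
    have := hs.he
    calc L * wt h n - wt h n * L = -(wt h n * L - L * wt h n) := by noncomm_ring
      _ = _ := by rw [this]
  have h1 : T = -(2 * L) := by
    have h2 : T + 2 * L = 0 := by
      apply hF
      · apply Submodule.add_mem _ (hT f hfE)
        rw [two_mul]
        exact Submodule.add_mem _ hLF hLF
      · intro y hy
        rw [mul_add, map_add, LinearMap.trace_mul_comm K y T, hTdef, cyc, hf _ (hT y hy), ← cyc,
          hTL, LinearMap.trace_mul_comm K y, ← map_add]
        have : -(2 * L) * y + 2 * L * y = 0 := by noncomm_ring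
        rw [this, map_zero]
    exact eq_neg_of_add_eq_zero_left h2
  exact comm_eq_wt h hL hbd hHL (hEh f hfE) h1

end Pool.Agent.E8helper99.SM
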