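import Pool.Agent.E8helper99.SM.NumEx
import Pool.Agent.E8helper24.INF.DInf

/-!
# The test cycles, and the standard conjectures B and C
-/

open CategoryTheory AlgebraicGeometry Finset

universe u v

namespace Pool.Agent.E8helper99.SM

open Pool.Agent.H914 Pool.Agent.H914.VarClass Pool.Agent.H914.VarClass.Obj
  Pool.Agent.H914.WeilCohomology Pool.Agent.H447 Pool.Agent.Y133.Half Pool.Agent.E8helper24.INF

variable {k : Type u} [Field k] {𝒱 : VarClass k} {ops : CycleOps 𝒱}
  {W : WeilCohomology.{u, v} ops} {X : 𝒱.Obj}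

lemma corr_snd {d : W.H X} (hd : d ∈ W.gr X (2 * 1)) (c : W.H (X.prod X)) :
    W.corr (W.map (snd X X) d * c) = LinearMap.mulLeft W.K d * W.corr c := by
  apply LinearMap.ext
  intro a
  rw [corr_apply, Module.End.mul_apply, LinearMap.mulLeft_apply, corr_apply,
    W.even_comm (W.map_mem _ hd), mul_assoc, W.even_comm (W.map_mem _ hd), ← mul_assoc,
    W.push_mul, ← W.even_comm hd]

lemma corr_fst {d : W.H X} (hd : d ∈ W.gr X (2 * 1)) (c : W.H (X.prod X)) :
    W.corr (W.map (fst X X) d * c) = W.corr c * LinearMap.mulLeft W.K d := by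
  apply LinearMap.ext
  intro a
  rw [corr_apply, Module.End.mul_apply, LinearMap.mulLeft_apply, corr_apply,
    W.even_comm (W.map_mem _ hd), mul_assoc, ← map_mul]

lemma corr_boxDiff {D : X.Cycles} (hD : X.IsCyc 1 D) (c : W.H (X.prod X)) :
    W.corr (W.cl _ (boxDiff ops D) * c) = LinearMap.mulLeft W.K (W.cl X D) * W.corr c -
      W.corr c * LinearMap.mulLeft W.K (W.cl X D) := by
  have hd : W.cl X D ∈ W.gr X (2 * 1) := W.cl_mem hD
  have h1 : W.cl _ (boxDiff ops D) = W.map (snd X X) (W.cl X D) - W.map (fst X X) (W.cl X D) := by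
    rw [boxDiff, map_sub, W.cl_pull, W.cl_pull]
  have h2 : W.corr (W.map (snd X X) (W.cl X D) * c) =
      W.corr (W.cl _ (boxDiff ops D) * c) + W.corr (W.map (fst X X) (W.cl X D) * c) := by
    rw [← corr_add, h1, ← add_mul, sub_add_cancel]
  rw [corr_snd hd, corr_fst hd] at h2
  rw [h2, add_sub_cancel_right]

lemma corr_testCyc {D : X.Cycles} (hD : X.IsCyc 1 D) (φ : (X.prod X).Cycles) :
    W.corr (W.cl _ (testCyc ops D φ)) = 2 * LinearMap.mulLeft W.K (W.cl X D) +
      adsq (LinearMap.mulLeft W.K (W.cl X D)) (W.corr (W.cl _ φ)) := by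
  rw [testCyc, map_add, W.cl_smul, corr_add, corr_smul, W.cl_mul, corr_boxDiff hD, W.cl_mul,
    corr_boxDiff hD, adsq_apply]
  congr 1
  apply LinearMap.ext
  intro a
  rw [LinearMap.smul_apply, W.cl_push, W.corr_diag, two_mul, LinearMap.add_apply,
    LinearMap.mulLeft_apply]
  push_cast
  rw [two_smul]

lemma isCyc_boxDiff {D : X.Cycles} (hD : X.IsCyc 1 D) :
    (X.prod X).IsCyc 1 (boxDiff ops D) := by
  have h1 := (ops.pull_mem (fst X X) hD).smul (-1)
  have h2 := (ops.pull_mem (snd X X) hD).add h1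
  have h3 : ops.pull (snd X X) D + (-1 : ℚ) • ops.pull (fst X X) D = boxDiff ops D := by
    rw [boxDiff, neg_one_smul, sub_eq_add_neg]
  rwa [h3] at h2

lemma isCyc_testCyc (hX : 1 ≤ X.dim) {D : X.Cycles} (hD : X.IsCyc 1 D) {φ : (X.prod X).Cycles}
    (hφ : (X.prod X).IsCyc (X.dim - 1) φ) : (X.prod X).IsCyc (X.dim + 1) (testCyc ops D φ) := by
  have h1 := (ops.push_mem (diag X) (q := X.dim + 1) hD (by rw [dim_prod]; omega)).smul 2
  have h2 := ops.mul_mem (isCyc_boxDiff (ops := ops) hD)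
    (ops.mul_mem (isCyc_boxDiff (ops := ops) hD) hφ)
  rw [show 1 + (1 + (X.dim - 1)) = X.dim + 1 by omega] at h2
  exact h1.add h2

/-- **The test cycles.** One of them is numerically trivial. -/
theorem exists_testCyc (W : WeilCohomology.{u, v} ops) (hX : 1 ≤ X.dim) {D : X.Cycles}
    (hD : X.IsCyc 1 D) : ∃ φ, (X.prod X).IsCyc (X.dim - 1) φ ∧
      NumZero ops (X.prod X) (X.dim + 1) (testCyc ops D φ) := by
  obtain ⟨f, hf, h1⟩ := exists_low (W := W) (rop_mulLeft hD)
  obtain ⟨φ, hφ, rfl⟩ := exists_of_rop (p := X.dim - 1) (by omega) hf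
  refine ⟨φ, hφ, fun w hw => ?_⟩
  rw [show (X.prod X).dim - (X.dim + 1) = X.dim - 1 by rw [dim_prod]; omega] at hw
  set g : Module.End W.K (W.H X) := W.corr (W.map (swap X X) (W.cl _ w)) with hg
  have hgR : ROp W X (-1) g := by
    rw [hg, ← W.cl_pull]
    exact rop_corr (p := X.dim - 1) (by omega) (ops.pull_mem (swap X X) hw)
  have h2 : st W X (W.corr (W.cl _ (testCyc ops D φ)) * g) = 0 := by
    rw [corr_testCyc hD, add_mul, map_add, h1 g hgR, two_mul, add_mul, map_add]
    ring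
  have h3 : st W X (W.corr (W.cl _ (testCyc ops D φ)) * g) =
      W.tr (X.prod X) (W.cl _ (testCyc ops D φ) * W.cl _ w) := by
    rw [st_apply]
    change LinearMap.trace W.K (W.H X) (par (W.isInternal X) ∘ₗ
      W.corr (W.cl _ (testCyc ops D φ)) ∘ₗ g) = _
    rw [hg, trace_corr_corr, swap_swap]
  have h4 := ops.mul_mem (isCyc_testCyc (ops := ops) hX hD hφ) hw
  rw [show X.dim + 1 + (X.dim - 1) = (X.prod X).dim by rw [dim_prod]; omega] at h4
  rw [h2, ← W.cl_mul, W.tr_cl h4] at h3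
  exact_mod_cast h3.symm

/-- **The criterion.** -/
theorem lef_iff {D : X.Cycles} (hD : X.IsCyc 1 D) (hHL : HardLefschetz W X D) :
    LefschetzB W X D ↔ ∃ φ, (X.prod X).IsCyc (X.dim - 1) φ ∧
      W.cl _ (testCyc ops D φ) = 0 := by
  have h := W.isInternal X
  have hLR : ROp W X 1 (LinearMap.mulLeft W.K (W.cl X D)) := rop_mulLeft hD
  have hLh : IsHom (W.gr X) 2 (LinearMap.mulLeft W.K (W.cl X D)) := by
    simpa using rop_opAlg.hom hLR
  by_cases hX : X.dim = 0
  · have hL0 : LinearMap.mulLeft W.K (W.cl X D) = 0 := by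
      have h1 : W.cl X D = 0 := by
        have := W.cl_mem hD
        rw [W.gr_eq_bot _ _ (by omega)] at this
        exact (Submodule.mem_bot _).1 this
      rw [h1]
      ext a
      simp
    refine ⟨fun _ => ⟨0, SmVar.IsCyc.zero _ _, ?_⟩, fun _ => ?_⟩
    · apply corr_inj
      rw [corr_testCyc hD, hL0, adsq_apply]
      simp
    · refine (lef_of_low hD hHL (f := 0) (Submodule.zero_mem _) ?_).1
      rw [hL0, mul_zero, sub_zero]
      symm
      apply gr_ext h
      intro i a ha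
      by_cases hi : i = 0
      · subst hi
        rw [wt, scal_apply _ _ ha, node, hX]
        simp
      · rw [W.gr_eq_bot _ _ (by omega)] at ha
        rw [(Submodule.mem_bot _).1 ha, map_zero, map_zero]
  constructor
  · intro hB
    obtain ⟨f, hf, h1⟩ := low_of_lef hD hHL hB
    obtain ⟨φ, hφ, rfl⟩ := exists_of_rop (p := X.dim - 1) (by omega) hf
    refine ⟨φ, hφ, corr_inj ?_⟩
    rw [corr_testCyc hD, adsq_apply, h1, hLh.wt_comm h X.dim]
    have : ((2 : ℤ) : W.K) • LinearMap.mulLeft W.K (W.cl X D) =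
        2 * LinearMap.mulLeft W.K (W.cl X D) := by
      rw [two_mul, Int.cast_ofNat, two_smul]
    rw [this]
    abel
  · rintro ⟨φ, hφ, h0⟩
    have hf : W.corr (W.cl _ φ) ∈ KS (ROp W X) (-1) :=
      Submodule.subset_span (rop_corr (p := X.dim - 1) (by omega) hφ)
    have hfh : IsHom (W.gr X) (-2) (W.corr (W.cl _ φ)) := by
      simpa using rop_opAlg.kspan.hom hf
    have h1 : W.corr (W.cl _ (testCyc ops D φ)) = 0 := by rw [h0, corr_zero]
    rw [corr_testCyc hD] at h1
    exact (lef_of_low hD hHL hf (comm_eq_wt h hLh W_hbd hHL hfh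
      (by rw [← adsq_apply]; exact eq_neg_of_add_eq_zero_right h1))).1

theorem kunneth_of_lef {D : X.Cycles} (hD : X.IsCyc 1 D) (hHL : HardLefschetz W X D)
    (hB : LefschetzB W X D) : KunnethStd W X := by
  have htf := (weight_tfae hD hHL).out 0 2
  exact (htf.1 hB).1

/-- The failure of the standard conjectures and the infection law. -/
theorem infection_of_not_lef (hX : 1 ≤ X.dim) {D : X.Cycles} (hD : X.IsCyc 1 D)
    (hHL : HardLefschetz W X D) (hB : ¬ LefschetzB W X D) :
    ∃ C : ℝ, ∀ n : ℕ,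
      (∀ Z : 𝒱.Obj, AtMost W (C * rate n) ((pw X n).prod (Z.prod Z))) ∧
      (∀ Y : 𝒱.Obj, AtMost W (C * rate n * Module.finrank W.K (W.H Y)) ((pw X n).prod Y)) ∧
      (∀ Y Z : 𝒱.Obj, AtMost W (C * rate n * Module.finrank W.K (W.H Y))
        ((pw X n).prod (Y.prod (Z.prod Z)))) := by
  refine (d_infection W X).resolve_left fun h => hB ?_
  have h1 : HomEqNum W (X.prod X) := h 1
  exact (smirnov hD hHL fun z hz hz' => h1 (X.dim + 1) (by rw [dim_prod]; omega) z hz hz').1

end Pool.Agent.E8helper99.SM
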