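import Pool.Agent.H914R2.DDefs

/-!
# A numerically trivial cycle on the square of a variety: definitions
-/

open CategoryTheory AlgebraicGeometry

universe u v

namespace Pool.Agent.E8helper99.SM

open Pool.Agent.H914 Pool.Agent.H914.VarClass Pool.Agent.H914.VarClass.Obj
  Pool.Agent.H914.WeilCohomology

variable {k : Type u} [Field k] {𝒱 : VarClass k} {ops : CycleOps 𝒱}

/-- The cycle `z` of codimension `j` on `Z` is numerically trivial: all its intersection numbers
with the cycles of the complementary codimension vanish. -/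
def NumZero (ops : CycleOps 𝒱) (Z : 𝒱.Obj) (j : ℕ) (z : Z.Cycles) : Prop :=
  ∀ w, Z.IsCyc (Z.dim - j) w → Z.V.degCycle (ops.mul z w) = 0

/-- The numerically trivial cycles of codimension `j` on `Z` are homologically equivalent to
zero. -/
def HomEqNumIn (W : WeilCohomology.{u, v} ops) (Z : 𝒱.Obj) (j : ℕ) : Prop :=
  ∀ z, Z.IsCyc j z → NumZero ops Z j z → W.cl Z z = 0

/-- The divisor `δ = X × D - D × X` on `X × X`. -/
noncomputable def boxDiff (ops : CycleOps 𝒱) {X : 𝒱.Obj} (D : X.Cycles) : (X.prod X).Cycles :=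
  ops.pull (snd X X) D - ops.pull (fst X X) D

/-- The cycle `2 Δ_* D + δ ^ 2 φ` of codimension `dim X + 1` on `X × X`, where `Δ` is the diagonal
embedding of `X`, `D` is a divisor on `X`, `δ = X × D - D × X`, and `φ` is a cycle of codimension
`dim X - 1` on `X × X`. -/
noncomputable def testCyc (ops : CycleOps 𝒱) {X : 𝒱.Obj} (D : X.Cycles) (φ : (X.prod X).Cycles) :
    (X.prod X).Cycles :=
  (2 : ℚ) • ops.push (diag X) D + ops.mul (boxDiff ops D) (ops.mul (boxDiff ops D) φ)

end Pool.Agent.E8helper99.SM
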