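import Mathlib

/-!
# A lemma of Jacobson
-/

namespace Pool.Agent.E8helper99.SM

variable {B : Type*} [Ring B] {L e : B}

section

variable (hc : L * (L * e - e * L) = (L * e - e * L) * L)

include hc

lemma jac_pow (k : ℕ) :
    L ^ (k + 1) * e = e * L ^ (k + 1) + (k + 1 : ℕ) • ((L * e - e * L) * L ^ k) := by
  induction k with
  | zero => simp
  | succ k ih =>
    have h1 : L ^ (k + 1 + 1) * e = L * (L ^ (k + 1) * e) := by rw [pow_succ' L (k + 1), mul_assoc]
    have h2 : L * ((L * e - e * L) * L ^ k) = (L * e - e * L) * L ^ (k + 1) := by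
      rw [← mul_assoc, hc, mul_assoc, ← pow_succ']
    have h3 : L * (e * L ^ (k + 1)) = e * L ^ (k + 1 + 1) + (L * e - e * L) * L ^ (k + 1) := by
      rw [pow_succ' L (k + 1)]
      noncomm_ring
    rw [h1, ih, mul_add, mul_smul_comm, h2, h3, succ_nsmul _ (k + 1)]
    abel

/-- The commutator is nilpotent. -/
lemma jac_comm_nilp (hchar : ∀ (q : ℕ) (x : B), q ≠ 0 → q • x = 0 → x = 0)
    (hL : IsNilpotent L) : IsNilpotent (L * e - e * L) := by
  set C := L * e - e * L with hC
  have hCL : Commute C L := hc.symm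
  obtain ⟨N, hN⟩ := hL
  have key : ∀ j, j ≤ N → ∃ p, C ^ p * L ^ (N - j) = 0 := by
    intro j
    induction j with
    | zero => intro _; exact ⟨0, by rw [pow_zero, one_mul, Nat.sub_zero, hN]⟩
    | succ j ih =>
      intro hj
      obtain ⟨p, hp⟩ := ih (by omega)
      obtain ⟨q, hq⟩ : ∃ q, N - j = q + 1 := ⟨N - j - 1, by omega⟩
      rw [hq] at hp
      refine ⟨p + 1 + p, ?_⟩
      rw [show N - (j + 1) = q by omega]
      apply hchar (q + 1) _ (Nat.succ_ne_zero q)
      have h1 := jac_pow hc q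
      have h2 : (q + 1) • (C ^ p * (C * L ^ q)) = - (C ^ p * e * L ^ (q + 1)) := by
        have h3 : C ^ p * (L ^ (q + 1) * e) = 0 := by rw [← mul_assoc, hp, zero_mul]
        rw [h1, mul_add, mul_smul_comm] at h3
        rw [← mul_assoc] at h3
        exact eq_neg_of_add_eq_zero_right h3
      have h4 : (q + 1) • (C ^ (p + 1 + p) * L ^ q) = (q + 1) • (C ^ p * (C * L ^ q)) * C ^ p := by
        rw [smul_mul_assoc]
        congr 1
        rw [pow_add, pow_succ, mul_assoc (C ^ p * C), (hCL.pow_pow p q).eq]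
        noncomm_ring
      rw [h4, h2, neg_mul, mul_assoc (C ^ p * e), ← (hCL.pow_pow p (q + 1)).eq, hp, mul_zero,
        neg_zero]
  obtain ⟨p, hp⟩ := key N le_rfl
  rw [Nat.sub_self, pow_zero, mul_one] at hp
  exact ⟨p, hp⟩

/-- **A lemma of Jacobson.** If `L` is nilpotent and commutes with `[L, e]`, then `L e` is
nilpotent. -/
theorem jacobson (hchar : ∀ (q : ℕ) (x : B), q ≠ 0 → q • x = 0 → x = 0)
    (hL : IsNilpotent L) : IsNilpotent (L * e) := by
  obtain ⟨M, hM⟩ := jac_comm_nilp hc hchar hL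
  set C := L * e - e * L with hC
  have hCL : Commute C L := hc.symm
  obtain ⟨N, hN⟩ := hL
  -- the basic formula
  have h1 : ∀ (k : ℕ) (b : B), ∃ b', L * e * (L ^ k * b) = (-(k : B)) * C * (L ^ k * b) + L ^ (k + 1) * b' := by
    intro k b
    refine ⟨e * b, ?_⟩
    rcases Nat.eq_zero_or_pos k with rfl | hk
    · simp only [pow_zero, one_mul, Nat.cast_zero, neg_zero, zero_mul, zero_add, pow_one, mul_assoc]
    · obtain ⟨k, rfl⟩ : ∃ j, k = j + 1 := ⟨k - 1, by omega⟩
      have h2 := jac_pow hc k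
      have h3 : e * L ^ (k + 1) = L ^ (k + 1) * e - (k + 1 : ℕ) • (C * L ^ k) := by
        rw [h2, add_sub_cancel_right]
      have h4 : L * e * (L ^ (k + 1) * b) = L * (e * L ^ (k + 1)) * b := by noncomm_ring
      have h5 : L * (C * L ^ k) = C * L ^ (k + 1) := by
        rw [← mul_assoc, ← hCL.eq, mul_assoc, ← pow_succ']
      rw [h4, h3, mul_sub, mul_smul_comm, h5, pow_succ' L (k + 1), nsmul_eq_mul]
      noncomm_ring
  have hcast : ∀ (k : ℕ) (x : B), (-(k : B)) * x = x * (-(k : B)) := by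
    intro k x
    rw [neg_mul, mul_neg, (Nat.cast_commute k x).eq]
  have h2 : ∀ (k : ℕ) (b : B) (j : ℕ), ∃ b', (L * e) ^ j * (L ^ k * b) =
      (-(k : B)) ^ j * C ^ j * (L ^ k * b) + L ^ (k + 1) * b' := by
    intro k b j
    induction j with
    | zero => exact ⟨0, by simp⟩
    | succ j ih =>
      obtain ⟨b', hb'⟩ := ih
      obtain ⟨b₁, hb₁⟩ := h1 k ((-(k : B)) ^ j * C ^ j * b)
      obtain ⟨b₂, hb₂⟩ := h1 (k + 1) b'
      have e1 : (-(k : B)) ^ j * C ^ j * (L ^ k * b) =
          L ^ k * ((-(k : B)) ^ j * C ^ j * b) := by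
        have e2 : Commute ((-(k : B)) ^ j) (L ^ k) :=
          (show Commute (-(k : B)) L from hcast k L).pow_pow j k
        have e3 : Commute (C ^ j) (L ^ k) := hCL.pow_pow j k
        rw [← mul_assoc, mul_assoc _ (C ^ j), e3.eq, ← mul_assoc, e2.eq]
        simp only [mul_assoc]
      refine ⟨b₁ + ((-((k + 1 : ℕ) : B)) * C * b' + L * b₂), ?_⟩
      rw [pow_succ', mul_assoc, hb', mul_add, e1, hb₁, hb₂]
      have e4 : (-(k : B)) * C * (L ^ k * ((-(k : B)) ^ j * C ^ j * b)) =
          (-(k : B)) ^ (j + 1) * C ^ (j + 1) * (L ^ k * b) := by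
        rw [← e1, pow_succ' _ j, pow_succ' C j]
        have e5 : Commute C ((-(k : B)) ^ j) :=
          ((show Commute (-(k : B)) C from hcast k C).pow_left j).symm
        calc -(k : B) * C * ((-(k : B)) ^ j * C ^ j * (L ^ k * b))
            = -(k : B) * (C * (-(k : B)) ^ j) * C ^ j * (L ^ k * b) := by
              simp only [mul_assoc]
          _ = _ := by rw [e5.eq]; simp only [mul_assoc]
      have e6 : (-((k + 1 : ℕ) : B)) * C * (L ^ (k + 1) * b') =
          L ^ (k + 1) * ((-((k + 1 : ℕ) : B)) * C * b') := by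
        have e2 : Commute (-((k + 1 : ℕ) : B)) (L ^ (k + 1)) :=
          (show Commute (-((k + 1 : ℕ) : B)) L from hcast (k + 1) L).pow_right (k + 1)
        have e3 : Commute C (L ^ (k + 1)) := hCL.pow_right (k + 1)
        rw [← mul_assoc, mul_assoc _ C, e3.eq, ← mul_assoc, e2.eq]
        simp only [mul_assoc]
      rw [e4, e6, pow_succ L (k + 1)]
      noncomm_ring
  have h3 : ∀ k : ℕ, ∃ (m : ℕ) (b : B), (L * e) ^ m = L ^ k * b := by
    intro k
    induction k with
    | zero => exact ⟨0, 1, by simp⟩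
    | succ k ih =>
      obtain ⟨m, b, hb⟩ := ih
      obtain ⟨b', hb'⟩ := h2 k b M
      refine ⟨M + m, b', ?_⟩
      rw [pow_add, hb, hb', hM, mul_zero, zero_mul, zero_add]
  obtain ⟨m, b, hb⟩ := h3 N
  exact ⟨m, by rw [hb, hN, zero_mul]⟩

end

end Pool.Agent.E8helper99.SM
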