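import Pool.Agent.E8helper99.SM.Abs
import Pool.Agent.E8helper99.SM.Defs
import Pool.Agent.H914R2.CPart
import Pool.Agent.H447R3.WtB
import Pool.Agent.Y133.Half.PairPow

/-!
# Homological and numerical equivalence on the square, and the standard conjectures B and C
-/

open CategoryTheory AlgebraicGeometry Finset

universe u v

namespace Pool.Agent.E8helper99.SM

open Pool.Agent.H914 Pool.Agent.H914.VarClass Pool.Agent.H914.VarClass.Obj
  Pool.Agent.H914.WeilCohomology Pool.Agent.H447 Pool.Agent.Y133.Half Pool.Agent.W536.RR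

variable {k : Type u} [Field k] {𝒱 : VarClass k} {ops : CycleOps 𝒱}
  {W : WeilCohomology.{u, v} ops} {X : 𝒱.Obj}

/-- The intersection pairing on the linear combinations of cycles of one codimension. -/
lemma cNondegIn {Z : 𝒱.Obj} {l l' : ℕ} (hZ : HomEqNumIn W Z l) (hl : l + l' = Z.dim) {u : W.H Z}
    (hu : u ∈ spanCycles W Z l) (h : ∀ b ∈ algClasses W Z l', bil W Z u b = 0) : u = 0 := by
  rw [spanCycles_eq] at hu
  refine span_nondeg (bil W Z) (algClasses W Z l) (algClasses W Z l') (alg_zero l)
    (fun a ha b hb => alg_add ha hb) (fun q a ha => alg_smul q ha)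
    (fun a ha b hb => alg_rat ha hb) ?_ u hu h
  rintro _ ⟨z, hz, rfl⟩ h0
  apply hZ z hz
  intro w hw
  obtain rfl : l' = Z.dim - l := by omega
  have h1 := h0 _ ⟨w, hw, rfl⟩
  have h2 := ops.mul_mem hz hw
  rw [hl] at h2
  rw [bil_apply, ← W.cl_mul, W.tr_cl h2] at h1
  exact_mod_cast h1

/-- The correspondences of degree `1` which are orthogonal to those of degree `-1`. -/
lemma nondeg_KS (hN : HomEqNumIn W (X.prod X) (X.dim + 1)) {y : Module.End W.K (W.H X)}
    (hy : y ∈ KS (ROp W X) 1)
    (h : ∀ x ∈ KS (ROp W X) (-1), LinearMap.trace W.K (W.H X) (x * y) = 0) : y = 0 := by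
  have hOA := rop_opAlg (W := W) (X := X)
  rw [mem_KS_iff] at hy
  obtain ⟨γ, hγ, rfl⟩ := mem_KOp_iff.1 hy
  rw [← mem_KS_iff] at hy
  have hγ' : γ ∈ spanCycles W (X.prod X) ((X.dim + 1 : ℕ) : ℤ) := by exact_mod_cast hγ
  suffices h0 : γ = 0 by rw [h0, corr_zero]
  by_cases hn : X.dim = 0
  · have h1 := H914.span_gr hγ'
    rw [W.gr_eq_bot _ _ (by rw [dim_prod]; omega)] at h1
    exact (Submodule.mem_bot _).1 h1
  refine cNondegIn hN (l' := X.dim - 1) (by rw [dim_prod]; omega) hγ' ?_
  rintro _ ⟨w, hw, rfl⟩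
  set g : Module.End W.K (W.H X) := W.corr (W.map (swap X X) (W.cl _ w)) with hg
  have hgR : g ∈ KS (ROp W X) (-1) := by
    rw [hg, ← W.cl_pull]
    exact Submodule.subset_span (rop_corr (p := X.dim - 1) (by omega)
      (ops.pull_mem (swap X X) hw))
  set f : Module.End W.K (W.H X) := W.corr γ * g with hf
  have hf0 : f ∈ KS (ROp W X) 0 := hOA.kspan.cast (hOA.kspan.mul hy hgR) (by norm_num)
  have h1 : IsNilpotent f := by
    apply isNilpotent_of_trace_pow
    intro r
    have e1 : f ^ (r + 1) = W.corr γ * (g * f ^ r) := by rw [pow_succ', hf, mul_assoc]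
    rw [e1, LinearMap.trace_mul_comm]
    exact h _ (hOA.kspan.cast (hOA.kspan.mul hgR (hOA.kspan.pow hf0 r)) (by simp))
  have h2 : Commute (par (W.isInternal X)) f :=
    IsHom.par_comm (W.isInternal X) (d := 0) (hOA.kspan.hom hf0)
  have h3 := Pool.Agent.Y129.trace_nil (h2.isNilpotent_mul_left h1)
  have h4 : par (W.isInternal X) * f = par (W.isInternal X) ∘ₗ W.corr γ ∘ₗ g := rfl
  rw [h4, hg, trace_corr_corr, swap_swap] at h3
  exact h3

/-- The standard conjectures B and C from the lowering operator. -/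
theorem lef_of_low {D : X.Cycles} (hD : X.IsCyc 1 D) (hHL : HardLefschetz W X D)
    {f : Module.End W.K (W.H X)} (hf : f ∈ KS (ROp W X) (-1))
    (hLf : LinearMap.mulLeft W.K (W.cl X D) * f - f * LinearMap.mulLeft W.K (W.cl X D) =
      wt (W.isInternal X) X.dim) : LefschetzB W X D ∧ KunnethStd W X := by
  have h := W.isInternal X
  have hOA := rop_opAlg (W := W) (X := X)
  set L : Module.End W.K (W.H X) := LinearMap.mulLeft W.K (W.cl X D) with hLdef
  have hLR : L ∈ KS (ROp W X) 1 := Submodule.subset_span (rop_mulLeft hD)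
  have hLh : IsHom (W.gr X) 2 L := by simpa using hOA.kspan.hom hLR
  -- the weight operator and the projectors
  have hwR : wt h X.dim ∈ KS (ROp W X) 0 := by
    rw [← hLf]
    exact hOA.kspan.sub (hOA.kspan.cast (hOA.kspan.mul hLR hf) (by norm_num))
      (hOA.kspan.cast (hOA.kspan.mul hf hLR) (by norm_num))
  have hP : ∀ i, proj h i ∈ KS (ROp W X) 0 := by
    intro i
    by_cases hi : i < 2 * X.dim + 1
    · rw [← ev_herm_of_nilp h W_hbd (c := 0) (isHom_zero 0) (N := 1) (by simp)
        (Finset.mem_range.2 hi), add_zero]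
      exact hOA.kspan.ev hwR _
    · have : proj h i = 0 := by
        apply gr_ext h
        intro j a ha
        by_cases hj : j = i
        · subst hj
          rw [W.gr_eq_bot X j (by omega)] at ha
          rw [(Submodule.mem_bot _).1 ha, map_zero, map_zero]
        · rw [proj_ne h ha hj, LinearMap.zero_apply]
      rw [this]
      exact Submodule.zero_mem _
  have key := exists_inverse_of_comm (A := tot (ROp W X)) h W_hbd hLh hHL
    (mem_tot (Submodule.subset_span hOA.one)) (tot_mul hOA)
    (mem_tot hLR) (fun i => mem_tot (hP i)) (s := 1) (u := fun _ => L) (v := fun _ => f)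
    (fun i => mem_tot hLR) (fun i => mem_tot hf) (c := 0) (by simpa using hLf) IsNilpotent.zero
  have hB : LefschetzB W X D := by
    apply lefschetzB_of_inj hD hHL
    intro m hm
    obtain ⟨y, hy, hy1, hy2, hy3⟩ := key m hm
    refine ⟨y, ?_, ?_⟩
    · rw [← mem_KS_iff]
      have h1 := tot_extract hOA h hP hm hy
      rwa [hy1, hy2] at h1
    · intro a ha h0
      have h1 := congrArg (fun F => F a) hy3
      rw [Module.End.mul_apply, h0, map_zero, proj_same h ha] at h1
      exact h1.symm
  have htf := (weight_tfae hD hHL).out 0 2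
  exact ⟨hB, (htf.1 hB).1⟩

/-- The lowering operator from the standard conjecture B. -/
theorem low_of_lef {D : X.Cycles} (hD : X.IsCyc 1 D) (hHL : HardLefschetz W X D)
    (hB : LefschetzB W X D) : ∃ f, ROp W X (-1) f ∧
      LinearMap.mulLeft W.K (W.cl X D) * f - f * LinearMap.mulLeft W.K (W.cl X D) =
        wt (W.isInternal X) X.dim := by
  have h := W.isInternal X
  have hOA := rop_opAlg (W := W) (X := X)
  set L : Module.End W.K (W.H X) := LinearMap.mulLeft W.K (W.cl X D) with hLdef
  have hLR : ROp W X 1 L := rop_mulLeft hD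
  have hLh : IsHom (W.gr X) 2 L := by simpa using hOA.hom hLR
  obtain ⟨Φ, hΦ, hLam⟩ := lefschetzB_iff_rop.1 hB
  have hwt := sum_comm_eq_wt h hLh W_hbd hHL hLam
  refine ⟨∑ m ∈ range X.dim, ∑ a ∈ range (m + 1), L ^ a * Φ ^ (m + 1) * L ^ (m - a), ?_, ?_⟩
  · apply hOA.sum
    intro m _
    apply hOA.sum
    intro a ha
    rw [Finset.mem_range] at ha
    refine hOA.cast (hOA.mul (hOA.mul (hOA.pow hLR a) (hOA.pow hΦ (m + 1))) (hOA.pow hLR (m - a)))
      ?_
    have : ((m - a : ℕ) : ℤ) = m - a := by omega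
    rw [this]
    push_cast
    ring
  · rw [← hwt, Finset.mul_sum, Finset.sum_mul, ← Finset.sum_sub_distrib]
    exact Finset.sum_congr rfl fun m _ => comm_sum L Φ m

/-- **Homological and numerical equivalence on the square.** If hard Lefschetz holds for a divisor
on `X` and homological equivalence coincides with numerical equivalence for the cycles of
codimension `dim X + 1` on `X × X`, then the standard conjectures B and C hold for `X` (a refinement
of a theorem of Smirnov). -/
theorem smirnov {D : X.Cycles} (hD : X.IsCyc 1 D) (hHL : HardLefschetz W X D)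
    (hN : HomEqNumIn W (X.prod X) (X.dim + 1)) : LefschetzB W X D ∧ KunnethStd W X := by
  have h := W.isInternal X
  have hOA := rop_opAlg (W := W) (X := X)
  set L : Module.End W.K (W.H X) := LinearMap.mulLeft W.K (W.cl X D) with hLdef
  have hLR : L ∈ KS (ROp W X) 1 := Submodule.subset_span (rop_mulLeft hD)
  have hLh : IsHom (W.gr X) 2 L := by simpa using hOA.kspan.hom hLR
  obtain ⟨f, hf, hLf⟩ := lam_mem h hLh W_hbd hHL (E := KS (ROp W X) (-1)) (F := KS (ROp W X) 1)
    (fun y hy hy' => nondeg_KS hN hy hy')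
    (fun x hx => by simpa using hOA.kspan.hom hx) hLR
    (fun x hx => by
      have h1 : L * x - x * L ∈ KS (ROp W X) 0 :=
        hOA.kspan.sub (hOA.kspan.cast (hOA.kspan.mul hLR hx) (by norm_num))
          (hOA.kspan.cast (hOA.kspan.mul hx hLR) (by norm_num))
      exact hOA.kspan.sub (hOA.kspan.cast (hOA.kspan.mul hLR h1) (by norm_num))
        (hOA.kspan.cast (hOA.kspan.mul h1 hLR) (by norm_num)))
  exact lef_of_low hD hHL hf hLf

end Pool.Agent.E8helper99.SM
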