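import Pool.Agent.E8helper99.SM.Str
import Pool.Agent.E8helper99.SM.Smirnov

/-!
# A numerically trivial cycle on the square of a variety
-/

open CategoryTheory AlgebraicGeometry Finset

universe u v

namespace Pool.Agent.E8helper99.SM

open Pool.Agent.H914 Pool.Agent.H914.VarClass Pool.Agent.H914.VarClass.Obj
  Pool.Agent.H914.WeilCohomology Pool.Agent.H447 Pool.Agent.Y133.Half Pool.Agent.W536.RR

variable {k : Type u} [Field k] {𝒱 : VarClass k} {ops : CycleOps 𝒱}
  {W : WeilCohomology.{u, v} ops} {X : 𝒱.Obj}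

lemma cl_mem_alg {Y : 𝒱.Obj} {p : ℕ} {z : Y.Cycles} (hz : Y.IsCyc p z) :
    W.cl Y z ∈ (algSys W).C Y :=
  Submodule.subset_span (Set.mem_iUnion.2 ⟨p, z, hz, rfl⟩)

/-- The algebra of the correspondences. -/
noncomputable def opA (W : WeilCohomology.{u, v} ops) (X : 𝒱.Obj) :
    Subalgebra W.K (Module.End W.K (W.H X)) where
  carrier := (((algSys W).Op X X : Submodule W.K (Module.End W.K (W.H X))) : Set _)
  mul_mem' := fun ha hb => Sys.Op.comp ha hb
  add_mem' := fun ha hb => Submodule.add_mem _ ha hb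
  algebraMap_mem' := fun r => by
    rw [Algebra.algebraMap_eq_smul_one]
    exact Submodule.smul_mem _ _ Sys.Op.id

lemma mem_opA {u : Module.End W.K (W.H X)} : u ∈ opA W X ↔ u ∈ (algSys W).Op X X := Iff.rfl

lemma opA_of_KS {d : ℤ} {x : Module.End W.K (W.H X)} (hx : x ∈ KS (ROp W X) d) :
    x ∈ opA W X := by
  rw [mem_opA]
  induction hx using Submodule.span_induction with
  | mem x hx =>
    obtain ⟨Y, ⟨r, hr, z, hz, hY⟩ | ⟨-, hY⟩, rfl⟩ := hx
    · rw [hY]; exact Sys.Op.corr (cl_mem_alg hz)
    · rw [hY]; exact Submodule.zero_mem _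
  | zero => exact Submodule.zero_mem _
  | add x y _ _ hx hy => exact Submodule.add_mem _ hx hy
  | smul a x _ hx => exact Submodule.smul_mem _ _ hx

lemma par_opA {u : Module.End W.K (W.H X)} (hu : u ∈ opA W X) :
    par (W.isInternal X) * u = u * par (W.isInternal X) := (Sys.Op.ev (mem_opA.1 hu)).par_comm

/-- The super trace. -/
noncomputable def st (W : WeilCohomology.{u, v} ops) (X : 𝒱.Obj) :
    Module.End W.K (W.H X) →ₗ[W.K] W.K :=
  LinearMap.trace W.K (W.H X) ∘ₗ LinearMap.mulLeft W.K (par (W.isInternal X))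

lemma st_apply (u : Module.End W.K (W.H X)) :
    st W X u = LinearMap.trace W.K (W.H X) (par (W.isInternal X) * u) := rfl

lemma st_comm {u : Module.End W.K (W.H X)} (hu : u ∈ opA W X) (v : Module.End W.K (W.H X)) :
    st W X (u * v) = st W X (v * u) := by
  rw [st_apply, st_apply, ← mul_assoc, par_opA hu, mul_assoc, LinearMap.trace_mul_comm, mul_assoc]

lemma st_isHom {d : ℤ} (hd : d ≠ 0) {u : Module.End W.K (W.H X)} (hu : IsHom (W.gr X) d u) :
    st W X u = 0 := by
  rw [st_apply]
  refine trace_isHom (W.isInternal X) hd ?_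
  have := (isHom_scal (W.isInternal X) (fun i => (-1 : W.K) ^ i)).mul hu
  rwa [zero_add] at this

/-- Orthogonality to the correspondences of one degree. -/
lemma orth_all {d e : ℤ} (hde : d + e = 0) {x : Module.End W.K (W.H X)}
    (hx : x ∈ KS (ROp W X) d) (h : ∀ y ∈ KS (ROp W X) e, st W X (x * y) = 0) :
    ∀ y ∈ opA W X, st W X (x * y) = 0 := by
  intro y hy
  obtain ⟨c, hc, rfl⟩ := Sys.mem_Op.1 (mem_opA.1 hy)
  refine algSpan_induction (p := fun c => st W X (x * W.corr c) = 0) ?_ ?_ ?_ ?_ hc
  · rw [corr_zero, mul_zero, map_zero]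
  · intro a b ha hb
    rw [corr_add, mul_add, map_add, ha, hb, add_zero]
  · intro t a ha
    rw [corr_smul, mul_smul_comm, map_smul, ha, smul_zero]
  · intro p z hz
    have h1 : W.corr (W.cl _ z) ∈ KS (ROp W X) ((p : ℤ) - X.dim) :=
      Submodule.subset_span (rop_corr (by ring) hz)
    by_cases hp : (p : ℤ) - X.dim = e
    · exact h _ (hp ▸ h1)
    · refine st_isHom (d := 2 * (d + ((p : ℤ) - X.dim))) (by omega) ?_
      exact rop_opAlg.kspan.hom (rop_opAlg.kspan.mul hx h1)

/-- The double commutator. -/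
noncomputable def adsq {K : Type*} [Field K] {V : Type*} [AddCommGroup V] [Module K V]
    (L : Module.End K V) : Module.End K (Module.End K V) :=
  (LinearMap.mulLeft K L - LinearMap.mulRight K L) ∘ₗ
    (LinearMap.mulLeft K L - LinearMap.mulRight K L)

lemma adsq_apply {K : Type*} [Field K] {V : Type*} [AddCommGroup V] [Module K V]
    (L x : Module.End K V) :
    adsq L x = L * (L * x - x * L) - (L * x - x * L) * L := rfl

lemma adsq_mem {d e : ℤ} (hde : e = d + 2) {L x : Module.End W.K (W.H X)}
    (hL : L ∈ KS (ROp W X) 1) (hx : x ∈ KS (ROp W X) d) : adsq L x ∈ KS (ROp W X) e := by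
  have hOA := rop_opAlg (W := W) (X := X)
  have h1 : L * x - x * L ∈ KS (ROp W X) (d + 1) :=
    hOA.kspan.sub (hOA.kspan.cast (hOA.kspan.mul hL hx) (by ring)) (hOA.kspan.mul hx hL)
  rw [adsq_apply, hde]
  exact hOA.kspan.sub (hOA.kspan.cast (hOA.kspan.mul hL h1) (by ring))
    (hOA.kspan.cast (hOA.kspan.mul h1 hL) (by ring))

lemma adsq_rop {d e : ℤ} (hde : e = d + 2) {L x : Module.End W.K (W.H X)}
    (hL : ROp W X 1 L) (hx : ROp W X d x) : ROp W X e (adsq L x) := by
  have hOA := rop_opAlg (W := W) (X := X)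
  have h1 : ROp W X (d + 1) (L * x - x * L) :=
    hOA.sub (hOA.cast (hOA.mul hL hx) (by ring)) (hOA.mul hx hL)
  rw [adsq_apply, hde]
  exact hOA.sub (hOA.cast (hOA.mul hL h1) (by ring)) (hOA.cast (hOA.mul h1 hL) (by ring))

lemma ring_id1 {R : Type*} [Ring R] (L x y : R) :
    (L * (L * x - x * L) - (L * x - x * L) * L) * y =
      L * L * x * y - (L * x * L * y + L * x * L * y) + x * L * L * y := by noncomm_ring

lemma ring_id2 {R : Type*} [Ring R] (L x y : R) :
    x * (L * (L * y - y * L) - (L * y - y * L) * L) =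
      x * L * L * y - (x * L * y * L + x * L * y * L) + x * y * L * L := by noncomm_ring

/-- The double commutator is self-adjoint. -/
lemma st_adsq {L : Module.End W.K (W.H X)} (hL : L ∈ opA W X) (x y : Module.End W.K (W.H X)) :
    st W X (adsq L x * y) = st W X (x * adsq L y) := by
  have e1 : st W X (L * L * x * y) = st W X (x * y * L * L) := by
    rw [show L * L * x * y = (L * L) * (x * y) by noncomm_ring,
      st_comm ((opA W X).mul_mem hL hL)]
    congr 1
  have e2 : st W X (L * x * L * y) = st W X (x * L * y * L) := by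
    rw [show L * x * L * y = L * (x * L * y) by noncomm_ring, st_comm hL]
  have e3 : adsq L x * y =
      L * L * x * y - (L * x * L * y + L * x * L * y) + x * L * L * y := by
    rw [adsq_apply, ring_id1]
  have e4 : x * adsq L y =
      x * L * L * y - (x * L * y * L + x * L * y * L) + x * y * L * L := by
    rw [adsq_apply, ring_id2]
  rw [e3, e4]
  simp only [map_add, map_sub]
  rw [e1, e2]
  ring

/-- **The numerical lowering operator**, with coefficients. -/
lemma exists_low_K {L : Module.End W.K (W.H X)} (hL : L ∈ KS (ROp W X) 1) :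
    ∃ f ∈ KS (ROp W X) (-1), ∀ e ∈ KS (ROp W X) (-1),
      st W X (f * adsq L e) = -2 * st W X (L * e) := by
  have hLA := opA_of_KS hL
  have hLh : IsHom (W.gr X) 2 L := by simpa using rop_opAlg.kspan.hom hL
  obtain ⟨f, hf, h1⟩ := exists_dual (KS (ROp W X) (-1))
    (LinearMap.mk₂ W.K (fun e f => st W X (adsq L e * f))
      (fun f f' e => by simp only [map_add, add_mul])
      (fun c f e => by simp only [map_smul, smul_mul_assoc])
      (fun f e e' => by simp only [map_add, mul_add])
      (fun c f e => by simp only [map_smul, mul_smul_comm]))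
    ((-2 : W.K) • (st W X ∘ₗ LinearMap.mulLeft W.K L)) (by
      intro e he h0
      have h2 : st W X (L * e) = 0 := by
        apply str_mul_eq_zero (A := opA W X) (fun x hx => par_opA hx) hLA (opA_of_KS he)
          (nilp_of_hom (W.isInternal X) hLh W_hbd)
        apply orth_all (d := 1) (e := -1) (by norm_num) (adsq_mem (by norm_num) hL he)
        intro y hy
        exact h0 y hy
      change (-2 : W.K) * st W X (L * e) = 0
      rw [h2, mul_zero])
  refine ⟨f, hf, fun e he => ?_⟩
  have h4 : st W X (adsq L e * f) = -2 * st W X (L * e) := h1 e he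
  rw [← h4, st_comm (opA_of_KS hf)]

/-- **The numerical lowering operator.** -/
lemma exists_low {L : Module.End W.K (W.H X)} (hL : ROp W X 1 L) :
    ∃ f, ROp W X (-1) f ∧ ∀ e, ROp W X (-1) e →
      st W X (adsq L f * e) = -2 * st W X (L * e) := by
  have hOA := rop_opAlg (W := W) (X := X)
  have hLK : L ∈ KS (ROp W X) 1 := Submodule.subset_span hL
  obtain ⟨f, hf, h1⟩ := exists_low_K hLK
  obtain ⟨ret, hret⟩ := exists_retract W.K
  obtain ⟨w, hw, h2⟩ := hOA.exists_twist (W.isInternal X) rop_str (ret := ret) hf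
  refine ⟨w, hw, fun e he => ?_⟩
  rw [st_adsq (opA_of_KS hLK)]
  have h3 := h2 (adsq L e) (by rw [neg_neg]; exact adsq_rop (by norm_num) hL he)
  rw [← st_apply, ← st_apply, h1 e (Submodule.subset_span he)] at h3
  obtain ⟨q, hq⟩ := rop_str _ (hOA.cast (hOA.mul hL he) (by norm_num))
  rw [← st_apply] at hq
  rw [h3, hq]
  have h4 : (-2 : W.K) * (q : W.K) = ((-2 * q : ℚ) : W.K) := by push_cast; ring
  rw [h4, ret_ratCast hret]

end Pool.Agent.E8helper99.SM
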