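import Pool.Agent.E8helper99.SM.Jac
import Pool.Agent.H914R2.Core0

/-!
# Super traces and numerically trivial operators
-/

open Polynomial

namespace Pool.Agent.E8helper99.SM

open Pool.Agent.H914

variable {K : Type*} [Field K] [CharZero K] {V : Type*} [AddCommGroup V] [Module K V]
  [Module.Finite K V] (A : Subalgebra K (Module.End K V)) (P : Module.End K V)

/-- The numerically trivial elements of an algebra of operators. -/
def numIdeal (hP : ∀ x ∈ A, P * x = x * P) : TwoSidedIdeal A :=
  TwoSidedIdeal.mk' {x | ∀ y ∈ A, LinearMap.trace K V (P * ((x : Module.End K V) * y)) = 0}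
    (by intro y _; simp)
    (by
      intro x x' hx hx' y hy
      have h1 := hx y hy
      have h2 := hx' y hy
      change LinearMap.trace K V (P * (((x : Module.End K V) + x') * y)) = 0
      rw [add_mul, mul_add, map_add, h1, h2, add_zero])
    (by
      intro x hx y hy
      have h1 := hx y hy
      change LinearMap.trace K V (P * ((-(x : Module.End K V)) * y)) = 0
      rw [neg_mul, mul_neg, map_neg, h1, neg_zero])
    (by
      intro x y hy z hz
      change LinearMap.trace K V (P * (((x : Module.End K V) * y) * z)) = 0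
      rw [mul_assoc, ← mul_assoc, hP x x.2, mul_assoc, LinearMap.trace_mul_comm, mul_assoc,
        mul_assoc]
      exact hy _ (A.mul_mem hz x.2))
    (by
      intro x y hx z hz
      change LinearMap.trace K V (P * (((x : Module.End K V) * y) * z)) = 0
      rw [mul_assoc]
      exact hx _ (A.mul_mem y.2 hz))

variable {A P}

omit [CharZero K] [Module.Finite K V] in
lemma mem_numIdeal {hP : ∀ x ∈ A, P * x = x * P} {x : A} : x ∈ numIdeal A P hP ↔
    ∀ y ∈ A, LinearMap.trace K V (P * ((x : Module.End K V) * y)) = 0 := by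
  rw [numIdeal, TwoSidedIdeal.mem_mk']
  rfl

omit [CharZero K] [Module.Finite K V] in
/-- The super trace of a nilpotent operator vanishes. -/
lemma str_nilp {x : Module.End K V} (h : P * x = x * P) (hx : IsNilpotent x) :
    LinearMap.trace K V (P * x) = 0 :=
  (LinearMap.isNilpotent_trace_of_isNilpotent
    ((show Commute P x from h).isNilpotent_mul_left hx)).eq_zero

omit [CharZero K] in
/-- The super trace of an operator vanishes if a power of it is numerically trivial. -/
lemma str_of_pow (hP : ∀ x ∈ A, P * x = x * P) {a : Module.End K V} (ha : a ∈ A) {m : ℕ}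
    (hm : ∀ y ∈ A, LinearMap.trace K V (P * (a ^ m * y)) = 0) :
    LinearMap.trace K V (P * a) = 0 := by
  obtain ⟨w, k, hw0, hw, hkw, g, hg⟩ := exists_fitting a
  have hA : ∀ q : K[X], aeval a q ∈ A := fun q => by
    rw [← Polynomial.aeval_subalgebra_coe q A ⟨a, ha⟩]
    exact Subtype.coe_prop _
  set W := aeval a w with hW
  -- the complementary idempotent
  have hdvd : w - w * w ∣ (1 - w) ^ (m + 1) - (1 - w) := by
    obtain ⟨r, hr⟩ : w ∣ (1 - w) ^ m - 1 := by
      have := sub_dvd_pow_sub_pow (1 - w) 1 m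
      rw [one_pow, show (1 - w) - 1 = -w by ring, neg_dvd] at this
      exact this
    exact ⟨r, by rw [pow_succ]; linear_combination (1 - w) * hr⟩
  have e1 : aeval a ((1 - w) ^ (m + 1) - (1 - w)) = 0 := by
    obtain ⟨r, hr⟩ := hdvd
    rw [hr, map_mul, map_sub, map_mul, ← hW, hw, sub_self, zero_mul]
  have e2 : (X : K[X]) = w * X + X ^ m * (X * g ^ (m + 1) * X) -
      ((1 - w) ^ (m + 1) - (1 - w)) * X := by
    rw [hg]
    have h1 : w = 1 - X * g := by rw [← hg]; ring
    rw [h1]
    ring
  have e3 : a = W * a + a ^ m * aeval a (X * g ^ (m + 1) * X) := by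
    have h1 : aeval a (X : K[X]) = aeval a (w * X) + aeval a (X ^ m * (X * g ^ (m + 1) * X)) -
        aeval a (((1 - w) ^ (m + 1) - (1 - w)) * X) := by
      rw [← map_add, ← map_sub, ← e2]
    have h2 : aeval a (((1 - w) ^ (m + 1) - (1 - w)) * X) = 0 := by
      rw [map_mul, e1, zero_mul]
    have h3 : aeval a (w * X) = W * a := by rw [map_mul, aeval_X]
    have h4 : aeval a (X ^ m * (X * g ^ (m + 1) * X)) =
        a ^ m * aeval a (X * g ^ (m + 1) * X) := by rw [map_mul, map_pow, aeval_X]
    rw [h2, sub_zero, h3, h4, aeval_X] at h1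
    exact h1
  have hcom : Commute W a := by
    have : aeval a w * aeval a (X : K[X]) = aeval a (X : K[X]) * aeval a w := by
      rw [← map_mul, mul_comm, map_mul]
    rwa [aeval_X] at this
  have e4 : IsNilpotent (W * a) := by
    refine ⟨k + 1, ?_⟩
    rw [hcom.mul_pow, (hcom.pow_pow (k + 1) (k + 1)).eq]
    rw [pow_succ a k, pow_succ' W k, show a ^ k * a * (W * W ^ k) = a ^ k * (a * W) * W ^ k by
      noncomm_ring, ← hcom.eq, ← mul_assoc, hkw, zero_mul, zero_mul]
  have e5 : P * (W * a) = W * a * P := hP _ (A.mul_mem (hA w) ha)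
  rw [e3, mul_add, map_add, str_nilp e5 e4, hm _ (hA _), add_zero]

/-- **The main lemma.** If `L` is nilpotent and `[L, [L, e]]` is numerically trivial, the super trace
of `L e` vanishes. -/
theorem str_mul_eq_zero (hP : ∀ x ∈ A, P * x = x * P) {L e : Module.End K V} (hL : L ∈ A)
    (he : e ∈ A) (hLn : IsNilpotent L)
    (hT : ∀ y ∈ A, LinearMap.trace K V
      (P * ((L * (L * e - e * L) - (L * e - e * L) * L) * y)) = 0) :
    LinearMap.trace K V (P * (L * e)) = 0 := by
  set N := numIdeal A P hP with hN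
  set π : A →+* N.ringCon.Quotient := N.ringCon.mk' with hπ
  have hπ0 : ∀ x : A, π x = 0 ↔ x ∈ N := by
    intro x
    rw [TwoSidedIdeal.mem_iff, ← RingCon.eq]
    rfl
  have hsurj : Function.Surjective π := N.ringCon.mk'_surjective
  have hchar : ∀ (q : ℕ) (x : N.ringCon.Quotient), q ≠ 0 → q • x = 0 → x = 0 := by
    intro q x hq hx
    obtain ⟨x, rfl⟩ := hsurj x
    rw [← map_nsmul, hπ0, hN, mem_numIdeal] at hx
    rw [hπ0, hN, mem_numIdeal]
    intro y hy
    have h1 := hx y hy
    have h2 : P * (((q • x : A) : Module.End K V) * y) =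
        (q : K) • (P * ((x : Module.End K V) * y)) := by
      rw [Nat.cast_smul_eq_nsmul]
      change P * ((q • (x : Module.End K V)) * y) = _
      rw [smul_mul_assoc, mul_smul_comm]
    rw [h2, map_smul, smul_eq_mul] at h1
    exact (mul_eq_zero.1 h1).resolve_left (by exact_mod_cast hq)
  set L' : A := ⟨L, hL⟩ with hL'
  set e' : A := ⟨e, he⟩ with he'
  have hLn' : IsNilpotent L' := by
    obtain ⟨r, hr⟩ := hLn
    exact ⟨r, Subtype.ext hr⟩
  have h1 : L' * (L' * e' - e' * L') - (L' * e' - e' * L') * L' ∈ N := by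
    rw [hN, mem_numIdeal]
    exact hT
  have h2 : π L' * (π L' * π e' - π e' * π L') = (π L' * π e' - π e' * π L') * π L' := by
    rw [← sub_eq_zero]
    rw [← hπ0] at h1
    simpa only [map_sub, map_mul] using h1
  obtain ⟨m, hm⟩ := jacobson h2 hchar (hLn'.map π)
  have h3 : (L' * e') ^ m ∈ N := by
    rw [← hπ0, map_pow, map_mul, hm]
  rw [hN, mem_numIdeal] at h3
  exact str_of_pow hP (A.mul_mem hL he) (m := m) h3

/-- A functional which vanishes on the kernel of a bilinear form is given by the form. -/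
lemma exists_dual {F : Type*} [Field F] {U : Type*} [AddCommGroup U] [Module F U]
    [Module.Finite F U] (E : Submodule F U) (B : U →ₗ[F] U →ₗ[F] F) (φ : U →ₗ[F] F)
    (h : ∀ e ∈ E, (∀ y ∈ E, B e y = 0) → φ e = 0) :
    ∃ f ∈ E, ∀ e ∈ E, B e f = φ e := by
  set M : E →ₗ[F] Module.Dual F E := B.domRestrict₁₂ E E with hM
  have hMa : ∀ e f : E, M e f = B e f := fun e f => rfl
  have h1 : φ.domRestrict E ∈ (LinearMap.ker M).dualAnnihilator := by
    rw [Submodule.mem_dualAnnihilator]
    intro e he
    rw [LinearMap.mem_ker] at he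
    refine h e e.2 fun y hy => ?_
    have := congrArg (fun F => F ⟨y, hy⟩) he
    exact this
  rw [← LinearMap.range_dualMap_eq_dualAnnihilator_ker] at h1
  obtain ⟨ψ, hψ⟩ := h1
  obtain ⟨f, rfl⟩ := (Module.evalEquiv F E).surjective ψ
  refine ⟨f, f.2, fun e he => ?_⟩
  have h3 := congrArg (fun F => F ⟨e, he⟩) hψ
  exact h3

end Pool.Agent.E8helper99.SM
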